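import Pool.Agent.R538.MS.Comp

/-!
# The complexity of the minimum label sum of proper labellings

MIN-SUM (given a nice graph `G` and `q` in binary, is `mE(G) ≤ q`?) is NP-complete, even for
bipartite graphs, and `mE` can be computed in polynomial time on nice trees.

NP-hardness is by a reduction from exact cover by 3-sets. Write the labels as `1 + x`. The
vertex of an element has `n + 1` private neighbours of its own degree, where `n` is the number of
the elements, so it has to be raised by a total excess of at least one; the vertices of the elements
are pairwise non-adjacent, so a total excess of `n` raises each of them exactly once, and it cannot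
do this along an edge to a private neighbour. The vertex of a triple has neighbours whose degrees
are larger by `1` and by `2`, so it is raised by `0` or by `3`.

Trees: eliminate leaves one by one, keeping for each remaining vertex the table of the possible
triples (final colour, sum of the labels of the eliminated edges at the vertex, cost of the part
hanging at the vertex). By the combinatorial Nullstellensatz a nice graph with `m` edges has a proper
labelling with labels at most `m + 1`, which bounds the table polynomially.
-/

namespace Pool.Agent.Results.MP_ec274c_lc.MinSumComplexity

open Pool.Agent.NPC Pool.Agent.R550.GB Pool.Agent.R538.MS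

/-- MIN-SUM is in NP and NP-hard, NP-hardness holds on nice bipartite graphs, and there is a
polynomial-time function computing `mE` on all nice trees. -/
theorem result :
    (InNPP MinSum ∧ NPHardP MinSum ∧
      Pool.Agent.H673R2.NPHardOn
        (fun I : List (List ℕ) × ℕ => Nice (graph I.1) ∧ (graph I.1).IsBipartite)
        (fun I => mE (graph I.1) ≤ (I.2 : ℕ∞))) ∧
    ∃ F : List Bool → List Bool, PolyTime F ∧
      ∀ A : List (List ℕ), (graph A).IsTree → Nice (graph A) →
        ∃ N : ℕ, mE (graph A) = N ∧ F (bits A) = bits N :=
  ⟨⟨minSum_np, minSum_npHard, minSum_hard⟩, trees⟩

end Pool.Agent.Results.MP_ec274c_lc.MinSumComplexity
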